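import Pool.Agent.H3.LU.BStmts

/-!
Project LU, part B1: the charts of the manifold `E`.
-/

set_option autoImplicit false
set_option linter.unusedVariables false

open scoped BigOperators Manifold ContDiff Topology
open Pool.H3.L2

noncomputable section

namespace Pool.LU

namespace CHT

theorem l_cont {n : ℕ} {V : Type} (P : SPoly n V) (v : V) : Continuous (P.l v) := by
  have h1 : Continuous (P.a v) := (P.a v).continuous_of_finiteDimensional
  exact h1.add continuous_const

theorem eps_mul {ε : ℤˣ} : ((ε : ℤ) : ℝ) * ((ε : ℤ) : ℝ) = 1 := by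
  rcases Int.units_eq_one_or ε with h | h <;> simp [h]

theorem eps_ne {ε : ℤˣ} : ((ε : ℤ) : ℝ) ≠ 0 := by
  rcases Int.units_eq_one_or ε with h | h <;> simp [h]

/-- the sign of a real number -/
def sg (t : ℝ) : ℤˣ := if 0 ≤ t then 1 else -1

theorem sg_mul_abs (t : ℝ) : ((sg t : ℤ) : ℝ) * |t| = t := by
  unfold sg
  split_ifs with h
  · simp [abs_of_nonneg h]
  · simp [abs_of_neg (not_le.mp h)]

theorem sg_eq {ε : ℤˣ} {t : ℝ} (h : 0 ≤ ((ε : ℤ) : ℝ) * t) (ht : t ≠ 0) : sg t = ε := by
  unfold sg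
  rcases Int.units_eq_one_or ε with h1 | h1
  · rw [h1] at h ⊢
    rw [if_pos]
    simpa using h
  · rw [h1] at h ⊢
    rw [if_neg]
    simp at h
    exact fun h2 => ht (le_antisymm h h2)

section

variable {n : ℕ} {V : Type} [Fintype V] [DecidableEq V] {P : SPoly n V} {W : Type} [Group W]
  {R : RA V P.adj W}

theorem mk_eq (raf : RAFStmt) (pol : POLStmt) (top : TOPStmt) (hP : P.Good) (a : W)
    {y : Fin n → ℝ} (hy : y ∈ P.cham) {g g' : W} (hg : g ∈ stab R y) (hg' : g' ∈ stab R y)
    (x : Pt P) (h : ∀ v ∈ P.sig y, P.l v x.1 ≠ 0 → R.χ (a * g) v = R.χ (a * g') v) :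
    mk R (a * g) x = mk R (a * g') x := by
  have T := top n V P W R hP
  have F := raf V P.adj W R
  have C := (pol n V P hP).clique y hy
  rw [T.eq]
  refine ⟨rfl, ?_⟩
  have e1 : (a * g)⁻¹ * (a * g') = g⁻¹ * g' := by group
  rw [e1]
  have hk : g⁻¹ * g' ∈ stab R y := mul_mem (inv_mem hg) hg'
  have h1 : ∀ v, v ∉ P.sig x.1 → R.χ (g⁻¹ * g') v = 1 := by
    intro v hv
    by_cases hvy : v ∈ P.sig y
    · have := h v hvy hv
      rw [map_mul, map_mul, Pi.mul_apply, Pi.mul_apply] at this
      have h2 := mul_left_cancel this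
      rw [map_mul, Pi.mul_apply, map_inv, Pi.inv_apply, h2, inv_mul_cancel]
    · exact F.supp _ v hvy _ hk
  obtain ⟨k, hk1, hk2⟩ := F.ex (P.sig x.1 ∩ P.sig y) (R.χ (g⁻¹ * g')) (by
    intro v hv
    by_cases hvx : v ∈ P.sig x.1
    · exact F.supp _ v (fun hvy => hv ⟨hvx, hvy⟩) _ hk
    · exact h1 v hvx)
  have hky : k ∈ stab R y :=
    Subgroup.closure_mono (Set.image_mono Set.inter_subset_right) hk1
  have hkx : k ∈ stab R x.1 :=
    Subgroup.closure_mono (Set.image_mono Set.inter_subset_left) hk1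
  have h3 : (g⁻¹ * g') * k⁻¹ = 1 := by
    refine F.inj (P.sig y) C _ (mul_mem hk (inv_mem hky)) ?_
    rw [map_mul, map_inv, hk2, mul_inv_cancel]
  have h4 : g⁻¹ * g' = k := mul_inv_eq_one.mp h3
  rw [h4]
  exact hkx

end

end CHT

open CHT in
theorem cht (raf : RAFStmt) (pol : POLStmt) (top : TOPStmt) (prj : PRJStmt) : CHTStmt := by
  intro n V _ _ P W _ R hP π hπ a y hy e B hB hB1 hB2
  have T := top n V P W R hP
  have F := raf V P.adj W R
  have C := (pol n V P hP).clique y hy
  -- continuity of `π`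
  have hπc : Continuous π := by
    obtain ⟨π', h1, h2, -⟩ := prj n V P W R hP
    have : π = π' := by
      funext p
      obtain ⟨⟨w, x⟩, rfl⟩ := Quotient.exists_rep p
      funext v
      exact (hπ w x v).trans (h1 w x v).symm
    rw [this]
    exact h2
  have hBc : Continuous B := hB.continuous
  -- the elements `g ε`
  have hg : ∀ ε : Fin n → ℤˣ, ∃ g ∈ stab R y, ∀ i, R.χ (a * g) (e i) = ε i := by
    intro ε
    classical
    obtain ⟨g, hg1, hg2⟩ := F.ex (P.sig y)
      (fun v => if h : v ∈ P.sig y then ε (e.symm ⟨v, h⟩) * (R.χ a v)⁻¹ else 1)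
      (fun v hv => dif_neg hv)
    refine ⟨g, hg1, fun i => ?_⟩
    rw [map_mul, Pi.mul_apply, hg2]
    simp only [Subtype.coe_prop, dite_true, Subtype.coe_eta, Equiv.symm_apply_apply]
    rw [mul_comm, inv_mul_cancel_right]
  choose g hg1 hg2 using hg
  classical
  let sq : (Fin n → ℝ) → (Fin n → ℝ) := fun t => B (fun i => t i ^ 2)
  have hsq : Continuous sq := hBc.comp (continuous_pi fun i => (continuous_apply i).pow 2)
  let cl : (Fin n → ℝ) → Pt P := fun t => if h : sq t ∈ P.cham then ⟨sq t, h⟩ else ⟨y, hy⟩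
  let inv : (Fin n → ℝ) → ESp R := fun t => mk R (a * g (fun i => sg (t i))) (cl t)
  let tar : Set (Fin n → ℝ) := {t | ∀ v, v ∉ P.sig y → 0 < P.l v (sq t)}
  have hle : ∀ t i, P.l (e i) (sq t) = t i ^ 2 := fun t i => hB1 _ i
  have hcham : ∀ t ∈ tar, sq t ∈ P.cham := by
    intro t ht v
    by_cases hv : v ∈ P.sig y
    · have : v = e (e.symm ⟨v, hv⟩) := by simp
      rw [this, hle]
      positivity
    · exact (ht v hv).le
  have hcl : ∀ t ∈ tar, (cl t).1 = sq t := by
    intro t ht
    simp only [cl, dif_pos (hcham t ht)]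
  have hsig : ∀ t ∈ tar, P.sig (cl t).1 ⊆ P.sig y := by
    intro t ht v hv
    rw [hcl t ht] at hv
    by_contra h
    exact absurd hv (ht v h).ne'
  have hsurj : ∀ v ∈ P.sig y, ∃ i, (e i : V) = v := fun v hv => ⟨e.symm ⟨v, hv⟩, by simp⟩
  -- independence of the choice of the signs
  have hind : ∀ t ∈ tar, ∀ ε : Fin n → ℤˣ, (∀ i, 0 ≤ ((ε i : ℤ) : ℝ) * t i) →
      inv t = mk R (a * g ε) (cl t) := by
    intro t ht ε hε
    refine mk_eq raf pol top hP a hy (hg1 _) (hg1 _) _ ?_
    intro v hv hv2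
    obtain ⟨i, rfl⟩ := hsurj v hv
    rw [hcl t ht, hle] at hv2
    rw [hg2, hg2]
    exact sg_eq (hε i) (fun h => hv2 (by rw [h]; norm_num))
  -- the values of `π` on the inverse
  have hπinv : ∀ t ∈ tar, ∀ i, π (inv t) (e i) = t i := by
    intro t ht i
    have h1 := hπ (a * g (fun i => sg (t i))) (cl t) (e i)
    rw [hcl t ht, hle, Real.sqrt_sq_eq_abs, hg2] at h1
    rw [show π (inv t) (e i) = _ from h1]
    exact sg_mul_abs _
  have hπinv2 : ∀ t ∈ tar, ∀ v, v ∉ P.sig y → π (inv t) v =
      ((R.χ a v : ℤ) : ℝ) * Real.sqrt (P.l v (sq t)) := by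
    intro t ht v hv
    have h1 := hπ (a * g (fun i => sg (t i))) (cl t) v
    rw [hcl t ht, map_mul, Pi.mul_apply, F.supp _ v hv _ (hg1 _), mul_one] at h1
    exact h1
  -- the square of the coordinates of a point of the star
  have hstar : ∀ p ∈ star R a y, ∃ (k : W) (x : Pt P), k ∈ stab R y ∧ P.sig x.1 ⊆ P.sig y ∧
      p = mk R (a * k) x ∧ sq (fun i => π p (e i)) = x.1 := by
    rintro p ⟨k, x, hk, hx, rfl⟩
    refine ⟨k, x, hk, hx, rfl, ?_⟩
    have h1 : (fun i => π (mk R (a * k) x) (e i) ^ 2) = fun i => P.l (e i) x.1 := by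
      funext i
      rw [hπ, mul_pow, Real.sq_sqrt (x.2 _), pow_two, eps_mul, one_mul]
    show B (fun i => π (mk R (a * k) x) (e i) ^ 2) = x.1
    rw [h1, hB2]
  have hmapS : ∀ p ∈ star R a y, (fun i => π p (e i)) ∈ tar := by
    intro p hp v hv
    obtain ⟨k, x, hk, hx, h1, h2⟩ := hstar p hp
    rw [h2]
    exact lt_of_le_of_ne (x.2 v) (fun h => hv (hx h.symm))
  have hmapT : ∀ t ∈ tar, inv t ∈ star R a y := fun t ht => ⟨_, _, hg1 _, hsig t ht, rfl⟩
  have hleft : ∀ p ∈ star R a y, inv (fun i => π p (e i)) = p := by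
    intro p hp
    have ht := hmapS p hp
    obtain ⟨k, x, hk, hx, h1, h2⟩ := hstar p hp
    have h3 : cl (fun i => π p (e i)) = x := Subtype.ext ((hcl _ ht).trans h2)
    show mk R (a * g (fun i => sg (π p (e i)))) (cl fun i => π p (e i)) = p
    rw [h3, h1]
    refine mk_eq raf pol top hP a hy (hg1 _) hk _ ?_
    intro v hv hv2
    obtain ⟨i, rfl⟩ := hsurj v hv
    rw [hg2]
    have hpos : 0 < P.l (e i) x.1 := lt_of_le_of_ne (x.2 _) (Ne.symm hv2)
    have hsqrt := Real.sqrt_pos.mpr hpos
    rw [hπ]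
    refine sg_eq ?_ (mul_ne_zero eps_ne hsqrt.ne')
    rw [← mul_assoc, eps_mul, one_mul]
    exact hsqrt.le
  -- continuity of the inverse
  have hclc : Continuous (fun t : tar => cl t.1) := by
    rw [continuous_induced_rng]
    have : (Subtype.val ∘ fun t : tar => cl t.1) = fun t : tar => sq t.1 := by
      funext t
      exact hcl t.1 t.2
    rw [this]
    exact hsq.comp continuous_subtype_val
  have hinvc : ContinuousOn inv tar := by
    rw [continuousOn_iff_continuous_domRestrict]
    let O : (Fin n → ℤˣ) → Set tar := fun ε => {t | ∀ i, 0 ≤ ((ε i : ℤ) : ℝ) * t.1 i}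
    refine (locallyFinite_of_finite O).continuous ?_ ?_ ?_
    · rw [Set.eq_univ_iff_forall]
      intro t
      rw [Set.mem_iUnion]
      refine ⟨fun i => sg (t.1 i), fun i => ?_⟩
      have h1 := sg_mul_abs (t.1 i)
      calc (0 : ℝ) ≤ |t.1 i| := abs_nonneg _
        _ = ((sg (t.1 i) : ℤ) : ℝ) * (((sg (t.1 i) : ℤ) : ℝ) * |t.1 i|) := by
            rw [← mul_assoc, eps_mul, one_mul]
        _ = _ := by rw [h1]
    · intro ε
      have : O ε = ⋂ i, {t : tar | 0 ≤ ((ε i : ℤ) : ℝ) * t.1 i} := by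
        ext t
        simp [O]
      rw [this]
      refine isClosed_iInter fun i => isClosed_le continuous_const ?_
      exact continuous_const.mul ((continuous_apply i).comp continuous_subtype_val)
    · intro ε
      have h1 : ContinuousOn (fun t : tar => mk R (a * g ε) (cl t.1)) (O ε) :=
        ((T.cont _).comp hclc).continuousOn
      refine h1.congr ?_
      intro t ht
      exact hind t.1 t.2 ε ht
  have hopen : IsOpen tar := by
    have : tar = ⋂ v : V, {t | v ∉ P.sig y → 0 < P.l v (sq t)} := by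
      ext t
      simp [tar]
    rw [this]
    refine isOpen_iInter_of_finite fun v => ?_
    by_cases hv : v ∈ P.sig y
    · have : {t : Fin n → ℝ | v ∉ P.sig y → 0 < P.l v (sq t)} = Set.univ := by
        ext t
        simp [hv]
      rw [this]
      exact isOpen_univ
    · have : {t : Fin n → ℝ | v ∉ P.sig y → 0 < P.l v (sq t)} = {t | 0 < P.l v (sq t)} := by
        ext t
        simp [hv]
      rw [this]
      exact isOpen_lt continuous_const ((l_cont P v).comp hsq)
  have hfc : Continuous (fun (p : ESp R) (i : Fin n) => π p (e i)) :=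
    continuous_pi fun i => (continuous_apply _).comp hπc
  exact ⟨{ toFun := fun p i => π p (e i)
           invFun := inv
           source := star R a y
           target := tar
           map_source' := hmapS
           map_target' := hmapT
           left_inv' := hleft
           right_inv' := fun t ht => funext (hπinv t ht)
           open_source := T.star_open a y hy
           open_target := hopen
           continuousOn_toFun := hfc.continuousOn
           continuousOn_invFun := hinvc }, rfl, rfl, fun p _ i => rfl, hπinv2⟩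

end Pool.LU
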