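import Pool.Agent.H3.LU.BStmts

/-!
Project LU, part B1: the smooth structure of the manifold `E`.
-/

set_option autoImplicit false
set_option linter.unusedVariables false

open scoped BigOperators Manifold ContDiff Topology
open Pool.H3.L2

noncomputable section

namespace Pool.LU

namespace MFD

theorem l_smooth {n : ℕ} {V : Type} (P : SPoly n V) (v : V) : ContDiff ℝ ∞ (P.l v) := by
  have h1 : ContDiff ℝ ∞ (fun x => P.a v x) :=
    (LinearMap.toContinuousLinearMap (P.a v)).contDiff
  exact h1.add contDiff_const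

/-- the index set of the charts -/
structure Idx {n : ℕ} {V : Type} [DecidableEq V] {P : SPoly n V} {W : Type} [Group W]
    (R : RA V P.adj W) where
  a : W
  y : Fin n → ℝ
  hy : y ∈ P.cham
  e : Fin n ≃ P.sig y
  B : (Fin n → ℝ) → (Fin n → ℝ)
  hB : ContDiff ℝ ∞ B
  hB1 : ∀ t i, P.l (e i) (B t) = t i
  hB2 : ∀ x, B (fun i => P.l (e i) x) = x

end MFD

open MFD in
theorem mfd (cht : CHTStmt) (prj : PRJStmt) (pur : PURStmt) (bas : BASStmt) (top : TOPStmt) :
    MFDStmt := by
  intro n V _ _ P W _ R hP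
  have T := top n V P W R hP
  obtain ⟨π, hπ, hπc, hπg⟩ := prj n V P W R hP
  have hch : ∀ i : Idx R, ∃ φ : OpenPartialHomeomorph (ESp R) (Fin n → ℝ),
      φ.source = star R i.a i.y ∧
      φ.target = {t | ∀ v, v ∉ P.sig i.y → 0 < P.l v (i.B (fun k => t k ^ 2))} ∧
      (∀ p ∈ star R i.a i.y, ∀ k, φ p k = π p (i.e k)) ∧
      ∀ t ∈ φ.target, ∀ v, v ∉ P.sig i.y → π (φ.symm t) v =
        ((R.χ i.a v : ℤ) : ℝ) * Real.sqrt (P.l v (i.B (fun k => t k ^ 2))) := fun i =>
    cht n V P W R hP π hπ i.a i.y i.hy i.e i.B i.hB i.hB1 i.hB2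
  choose φ h1 h2 h3 h4 using hch
  have hcov : ∀ p : ESp R, ∃ i : Idx R, p ∈ (φ i).source := by
    intro p
    obtain ⟨⟨w, x⟩, rfl⟩ := Quotient.exists_rep p
    obtain ⟨y, hy, hxy, ⟨e⟩⟩ := pur n V P hP x.1 x.2
    obtain ⟨B, hB, hB1, hB2⟩ := bas n V P hP y hy e
    refine ⟨⟨w, y, hy, e, B, hB, hB1, hB2⟩, ?_⟩
    rw [h1]
    refine (T.star_cham w w y x hy).mpr ⟨hxy, ?_⟩
    rw [inv_mul_cancel]
    exact one_mem _
  choose idx hidx using hcov
  -- the coordinates of `π` are smooth in the charts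
  have hsm : ∀ (i : Idx R) (v : V), ContDiffOn ℝ ∞ (fun t => π ((φ i).symm t) v) (φ i).target := by
    intro i v
    by_cases hv : v ∈ P.sig i.y
    · have : ∀ t ∈ (φ i).target, π ((φ i).symm t) v = t (i.e.symm ⟨v, hv⟩) := by
        intro t ht
        have hs : (φ i).symm t ∈ star R i.a i.y := by
          rw [← h1]
          exact (φ i).map_target ht
        have := h3 i _ hs (i.e.symm ⟨v, hv⟩)
        rw [(φ i).right_inv ht] at this
        rw [this]
        simp
      refine ContDiffOn.congr ?_ this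
      exact (contDiff_apply ℝ ℝ _).contDiffOn
    · refine ContDiffOn.congr (f := fun t => ((R.χ i.a v : ℤ) : ℝ) *
        Real.sqrt (P.l v (i.B (fun k => t k ^ 2)))) ?_ (fun t ht => h4 i t ht v hv)
      refine contDiffOn_const.mul ?_
      have hin : ContDiff ℝ ∞ (fun t : Fin n → ℝ => P.l v (i.B (fun k => t k ^ 2))) := by
        refine (l_smooth P v).comp (i.hB.comp ?_)
        exact contDiff_pi.mpr fun k => (contDiff_apply ℝ ℝ k).pow 2
      refine hin.contDiffOn.sqrt ?_
      intro t ht
      rw [h2] at ht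
      exact (ht v hv).ne'
  let cs : ChartedSpace (Fin n → ℝ) (ESp R) :=
    { atlas := Set.range φ
      chartAt := fun p => φ (idx p)
      mem_chart_source := hidx
      chart_mem_atlas := fun p => ⟨_, rfl⟩ }
  refine ⟨cs, ?_, ?_⟩
  · refine isManifold_of_contDiffOn _ _ _ ?_
    rintro _ _ ⟨i, rfl⟩ ⟨j, rfl⟩
    simp only [modelWithCornersSelf_coe, modelWithCornersSelf_coe_symm, Function.comp_id,
      Function.id_comp, Set.preimage_id, Set.range_id, Set.inter_univ]
    refine contDiffOn_pi.mpr fun k => ?_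
    have hs : ((φ i).symm.trans (φ j)).source ⊆ (φ i).target := by
      intro t ht
      exact ht.1
    refine ((hsm i (j.e k)).mono hs).congr ?_
    intro t ht
    have ht2 : (φ i).symm t ∈ (φ j).source := ht.2
    rw [h1] at ht2
    exact h3 j _ ht2 k
  · intro g p
    rw [contMDiffAt_iff]
    refine ⟨(T.smul g).continuousAt, ?_⟩
    set i := idx p with hi
    set j := idx (g • p) with hj
    have hp : p ∈ (φ i).source := hidx p
    have hgp : g • p ∈ (φ j).source := hidx (g • p)
    simp only [extChartAt, modelWithCornersSelf_coe, Set.range_id, contDiffWithinAt_univ]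
    show ContDiffAt ℝ ∞ (fun t => φ j (g • (φ i).symm t)) (φ i p)
    have hpt : φ i p ∈ (φ i).target := (φ i).map_source hp
    have hc : ContinuousAt (fun t => g • (φ i).symm t) (φ i p) :=
      (T.smul g).continuousAt.comp ((φ i).continuousAt_symm hpt)
    have hmem : ∀ᶠ t in 𝓝 (φ i p), g • (φ i).symm t ∈ (φ j).source := by
      refine hc.eventually_mem ?_
      simp only [(φ i).left_inv hp]
      exact (φ j).open_source.mem_nhds hgp
    refine contDiffAt_pi.mpr fun k => ?_
    have h5 : ContDiffAt ℝ ∞ (fun t => ((R.χ g (j.e k) : ℤ) : ℝ) * π ((φ i).symm t) (j.e k))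
        (φ i p) :=
      contDiffAt_const.mul ((hsm i (j.e k)).contDiffAt ((φ i).open_target.mem_nhds hpt))
    refine h5.congr_of_eventuallyEq ?_
    filter_upwards [hmem] with t ht
    rw [h1] at ht
    rw [h3 j _ ht k, hπg]

end Pool.LU
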